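import Mathlib
import Pool.Agent.R442.GS.F
import Pool.Agent.R442.GS.E
import Pool.Agent.R706.GS.PartA

/-!
# Gessel-type gamma coefficients dominate the gamma coefficients of the separable permutations

Full (positive) answer to Q1 of MP_f98a08_co.
-/

set_option autoImplicit false

namespace Pool.Agent.Results.MP_f98a08_co.GesselDominatesSeparable

open Finset

/-- The number of descents of a permutation `σ` of `Fin n`: the number of `i` with `i + 1 < n` and
`σ (i + 1) < σ i` (by the convention `σ_{n+1} = ∞` the last position is not a descent). -/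
def des {n : ℕ} (σ : Equiv.Perm (Fin n)) : ℕ :=
  (univ.filter fun i : Fin n => ∃ h : i.val + 1 < n, σ ⟨i.val + 1, h⟩ < σ i).card

/-- The number of descents of the inverse permutation. -/
def ides {n : ℕ} (σ : Equiv.Perm (Fin n)) : ℕ := des σ⁻¹

/-- `σ` is separable: it avoids the patterns `2413` and `3142`. -/
def Separable {n : ℕ} (σ : Equiv.Perm (Fin n)) : Prop :=
  (¬ ∃ a b c d : Fin n, a < b ∧ b < c ∧ c < d ∧ σ c < σ a ∧ σ a < σ d ∧ σ d < σ b) ∧
  (¬ ∃ a b c d : Fin n, a < b ∧ b < c ∧ c < d ∧ σ b < σ d ∧ σ d < σ a ∧ σ a < σ c)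

/-- The identity defining the two-variable coefficients `γ_{n,i,j}` (`2i + j ≤ n - 1`). -/
def TwoVariableIdentity (n : ℕ) (γ : ℕ → ℕ → ℤ) : Prop := ∀ s t : ℤ,
  ∑ σ : Equiv.Perm (Fin n), s ^ ides σ * t ^ des σ =
    ∑ i ∈ range n, ∑ j ∈ range n,
      if 2 * i + j ≤ n - 1 then γ i j * (s * t) ^ i * (1 + s * t) ^ j * (s + t) ^ (n - 1 - j - 2 * i)
      else 0

open Classical in
/-- The identity defining the coefficients `γ^S_{n,k}` (`k ≤ (n-1)/2`). -/
def SeparableIdentity (n : ℕ) (γ : ℕ → ℤ) : Prop := ∀ t : ℤ,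
  ∑ σ ∈ (univ : Finset (Equiv.Perm (Fin n))).filter Separable, t ^ des σ =
    ∑ k ∈ range ((n - 1) / 2 + 1), γ k * t ^ k * (1 + t) ^ (n - 1 - 2 * k)

/-- If the integers `γ n i j` and `γS n k` satisfy the defining identities for all `n ≥ 1`, then
`γ_{n,k,n-1-2k} ≥ γ^S_{n,k}` for all `n ≥ 1` and `0 ≤ k ≤ ⌊(n-1)/2⌋`. -/
theorem result (γ : ℕ → ℕ → ℕ → ℤ) (γS : ℕ → ℕ → ℤ)
    (h : ∀ n, 1 ≤ n → TwoVariableIdentity n (γ n))
    (hS : ∀ n, 1 ≤ n → SeparableIdentity n (γS n)) :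
    ∀ n k : ℕ, 1 ≤ n → k ≤ (n - 1) / 2 → γS n k ≤ γ n k (n - 1 - 2 * k) := by
  intro n k hn hk
  refine R442.GS.main Pool.Agent.R706.GS.partA R442.GS.partE γ γS (fun m hm => h m hm) (fun m hm t => ?_) n k hn hk
  have := hS m hm t
  rw [← this, R442.GS.sepPoly]
  refine sum_congr ?_ (fun _ _ => rfl)
  ext σ
  simp only [mem_filter]
  rfl

end Pool.Agent.Results.MP_f98a08_co.GesselDominatesSeparable
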